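import Pool.Agent.X216.TR

/-!
# A Borel set with uncountably but not perfectly many translates with uncountable overlaps

We prove in ZFC that there is an `F_σ` set `B` in the Cantor group `2^ω` such that there is an
uncountable set `H` with `(B + x) ∩ (B + y)` uncountable for all `x, y ∈ H`, while each perfect set
contains different `x, y` such that `(B + x) ∩ (B + y)` has at most four elements.

Let `φ : 2^ω → Γ` be the map of a point to the set of its initial segments, and let `A` be the set
of the sums `φ(x) + φ(y)` such that `x` is a column of `y`, `x ≠ y`. Then `B` is the set of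
the points `(0, φ(v))` and the points `(a(v), φ(v))` with `a(v) ∈ A`, where `a : 2^ω → Γ` is
a continuous map onto `Γ` with uncountable fibres. For `z ≠ 0` the set `B ∩ (B + z)` is uncountable
if `z ∈ A × {0}` and has at most four elements otherwise.
-/

set_option autoImplicit false

open Set Filter Topology MeasureTheory

namespace Pool.Agent.Results.MP_11d5c7_lc.OverlappingTranslates

open Pool.Agent.X216.TR

/-! ### The set in the product of two copies of the group -/

/-- a continuous map of the Cantor space onto the group with uncountable fibres -/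
def a (v : K) : Γ := fun s => if v (2 * Encodable.encode s) then 1 else 0

lemma continuous_a : Continuous a := by
  refine continuous_pi fun s => ?_
  have h2 : Continuous fun z : Bool => (if z = true then 1 else 0 : ZMod 2) :=
    continuous_of_discreteTopology
  exact h2.comp (continuous_apply _)

/-- the elements of a fibre -/
def fib (z : Γ) (u : K) : K := fun m => if m % 2 = 0 then
  (match (Encodable.decode (m / 2) : Option (List Bool)) with
    | some s => decide (z s = 1)
    | none => false) else u (m / 2)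

lemma a_fib (z : Γ) (u : K) : a (fib z u) = z := by
  funext s
  have h1 : fib z u (2 * Encodable.encode s) = decide (z s = 1) := by
    unfold fib
    rw [if_pos (by omega), Nat.mul_div_cancel_left _ (by norm_num), Encodable.encodek]
  show (if fib z u (2 * Encodable.encode s) = true then 1 else 0) = z s
  rw [h1]
  generalize z s = c
  revert c
  decide

lemma fib_inj (z : Γ) : Function.Injective (fib z) := by
  intro u u' h
  funext n
  have h1 := congrFun h (2 * n + 1)
  unfold fib at h1
  rw [if_neg (by omega), if_neg (by omega)] at h1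
  have h2 : (2 * n + 1) / 2 = n := by omega
  rwa [h2] at h1

/-- the set in the product -/
def B₀ : Set (Γ × Γ) := range (fun v : K => ((0 : Γ), φ v)) ∪ (fun v : K => (a v, φ v)) '' (a ⁻¹' A)

lemma not_countable_K : ¬ (univ : Set K).Countable := by
  intro h
  have h3 : Cardinal.mk K = Cardinal.continuum := by simp
  have h1 : Countable K := Set.countable_univ_iff.1 h
  have h2 : Cardinal.mk K ≤ Cardinal.aleph0 := Cardinal.mk_le_aleph0_iff.2 h1
  rw [h3] at h2
  exact absurd h2 (not_le.2 Cardinal.aleph0_lt_continuum)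

lemma big {z : Γ} (hz : z ∈ A) : ¬ {p ∈ B₀ | p + (z, 0) ∈ B₀}.Countable := by
  intro h
  apply not_countable_K
  have h1 : Function.Injective fun u : K => ((0 : Γ), φ (fib z u)) := by
    intro u u' h
    exact fib_inj z (injective_φ (Prod.mk.inj h).2)
  refine Set.countable_of_injective_of_countable_image h1.injOn (h.mono ?_)
  rintro _ ⟨u, -, rfl⟩
  refine ⟨Or.inl ⟨_, rfl⟩, Or.inr ⟨fib z u, ?_, ?_⟩⟩
  · show a (fib z u) ∈ A
    rw [a_fib]
    exact hz
  · show (a (fib z u), φ (fib z u)) = ((0 : Γ) + z, φ (fib z u) + 0)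
    rw [a_fib, zero_add, add_zero]

lemma not_countable_B₀ : ¬ B₀.Countable := by
  intro h
  apply not_countable_K
  have h1 : Function.Injective fun u : K => ((0 : Γ), φ u) := by
    intro u u' h
    exact injective_φ (Prod.mk.inj h).2
  refine Set.countable_of_injective_of_countable_image h1.injOn (h.mono ?_)
  rintro _ ⟨u, -, rfl⟩
  exact Or.inl ⟨_, rfl⟩

/-- the first coordinate of a point of `B₀` -/
lemma mem_B₀ {p : Γ × Γ} (h : p ∈ B₀) : ∃ v, p.2 = φ v ∧ (p.1 = 0 ∨ (p.1 = a v ∧ a v ∈ A)) := by
  rcases h with ⟨v, rfl⟩ | ⟨v, hv, rfl⟩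
  · exact ⟨v, rfl, Or.inl rfl⟩
  · exact ⟨v, rfl, Or.inr ⟨rfl, hv⟩⟩

lemma small {z : Γ × Γ} (hz : z ≠ 0) (h : ¬ (z.1 ∈ A ∧ z.2 = 0)) :
    {p ∈ B₀ | p + z ∈ B₀}.encard ≤ 4 := by
  by_cases h2 : z.2 = 0
  · have h3 : {p ∈ B₀ | p + z ∈ B₀} = ∅ := by
      rw [Set.eq_empty_iff_forall_notMem]
      rintro p ⟨hp, hpz⟩
      obtain ⟨v, e1, e2⟩ := mem_B₀ hp
      obtain ⟨v', e3, e4⟩ := mem_B₀ hpz
      have e5 : v = v' := by
        apply injective_φ
        rw [← e1, ← e3]
        show p.2 = p.2 + z.2
        rw [h2, add_zero]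
      subst e5
      have hz1 : z.1 ≠ 0 := fun h0 => hz (Prod.ext h0 h2)
      have e6 : p.1 + z.1 = 0 ∨ (p.1 + z.1 = a v ∧ a v ∈ A) := e4
      have key : z.1 ∉ A := fun h0 => h ⟨h0, h2⟩
      rcases e2 with e2 | ⟨e2, e2'⟩
      · rw [e2, zero_add] at e6
        rcases e6 with e6 | ⟨e6, e6'⟩
        · exact hz1 e6
        · exact key (e6 ▸ e6')
      · rcases e6 with e6 | ⟨e6, e6'⟩
        · have := add_eq_of e6
          rw [add_zero] at this
          rw [this, e2] at key
          exact key e2'
        · have := add_eq_of e6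
          rw [e2, two_mul_φ] at this
          exact hz1 this
    rw [h3, encard_empty]
    exact bot_le
  · by_cases hne : {p ∈ B₀ | p + z ∈ B₀}.Nonempty
    swap
    · rw [Set.not_nonempty_iff_eq_empty.1 hne, encard_empty]
      exact bot_le
    obtain ⟨q, hq, hqz⟩ := hne
    obtain ⟨u, e1, -⟩ := mem_B₀ hq
    obtain ⟨u', e2, -⟩ := mem_B₀ hqz
    have e3 : z.2 = φ u + φ u' := by
      have : φ u + z.2 = φ u' := by
        rw [← e1, ← e2]
        rfl
      exact add_eq_of this
    have huu : u ≠ u' := by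
      rintro rfl
      rw [two_mul_φ] at e3
      exact h2 e3
    have h4 : {p ∈ B₀ | p + z ∈ B₀} ⊆
        {((0 : Γ), φ u), (a u, φ u), ((0 : Γ), φ u'), (a u', φ u')} := by
      rintro p ⟨hp, hpz⟩
      obtain ⟨v, f1, f2⟩ := mem_B₀ hp
      obtain ⟨v', f3, f4⟩ := mem_B₀ hpz
      have f5 : φ u + φ u' = φ v + φ v' := by
        have : φ v + z.2 = φ v' := by
          rw [← f1, ← f3]
          rfl
        rw [← e3, add_eq_of this]
      have f6 : v = u ∨ v = u' := by
        rcases pair_eq huu f5 with ⟨g1, g2⟩ | ⟨g1, g2⟩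
        · exact Or.inl g1.symm
        · exact Or.inr g2.symm
      have f7 : p.1 = 0 ∨ p.1 = a v := by
        rcases f2 with f2 | ⟨f2, -⟩
        · exact Or.inl f2
        · exact Or.inr f2
      simp only [mem_insert_iff, mem_singleton_iff, Prod.ext_iff]
      rcases f6 with rfl | rfl
      · rcases f7 with f7 | f7
        · exact Or.inl ⟨f7, f1⟩
        · exact Or.inr (Or.inl ⟨f7, f1⟩)
      · rcases f7 with f7 | f7
        · exact Or.inr (Or.inr (Or.inl ⟨f7, f1⟩))
        · exact Or.inr (Or.inr (Or.inr ⟨f7, f1⟩))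
    refine (encard_le_encard h4).trans ?_
    refine (encard_insert_le _ _).trans ?_
    refine (add_le_add_left (encard_insert_le _ _) _).trans ?_
    refine (add_le_add_left (add_le_add_left (encard_insert_le _ _) _) _).trans ?_
    rw [encard_singleton]
    norm_num

lemma compact_B₀ : ∃ C : ℕ → Set (Γ × Γ), (∀ n, IsCompact (C n)) ∧ B₀ = ⋃ n, C n := by
  have hc : Continuous fun v : K => (a v, φ v) := continuous_a.prodMk continuous_φ
  refine ⟨fun m => range (fun v : K => ((0 : Γ), φ v)) ∪
    (fun v : K => (a v, φ v)) '' (a ⁻¹' piece (Nat.unpair m).1 (Nat.unpair m).2), fun m => ?_, ?_⟩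
  · refine IsCompact.union ?_ ?_
    · exact isCompact_range (continuous_const.prodMk continuous_φ)
    · exact (((compact_piece _ _).isClosed.preimage continuous_a).isCompact).image hc
  · rw [← Set.union_iUnion, ← Set.image_iUnion, ← Set.preimage_iUnion, ← A_eq]
    rfl

/-! ### The transfer to the Cantor group -/

/-- the translate of a set -/
def tr (B : Set (ℕ → ZMod 2)) (x : ℕ → ZMod 2) : Set (ℕ → ZMod 2) := (fun b => b + x) '' B

lemma two_mul' (z : ℕ → ZMod 2) : z + z = 0 := by
  funext s
  exact CharTwo.add_self_eq_zero _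

lemma tr_inter (B : Set (ℕ → ZMod 2)) (x y : ℕ → ZMod 2) :
    tr B x ∩ tr B y = (fun b => b + x) '' {b ∈ B | b + (x + y) ∈ B} := by
  ext t
  constructor
  · rintro ⟨⟨b, hb, rfl⟩, ⟨c, hc, hcb⟩⟩
    refine ⟨b, ⟨hb, ?_⟩, rfl⟩
    have h1 : c + y = b + x := hcb
    have h2 : b + (x + y) = c := by
      rw [← add_assoc, ← h1, add_assoc, two_mul', add_zero]
    rw [h2]
    exact hc
  · rintro ⟨b, ⟨hb, hb'⟩, rfl⟩
    refine ⟨⟨b, hb, rfl⟩, ⟨b + (x + y), hb', ?_⟩⟩
    show b + (x + y) + y = b + x
    rw [← add_assoc, add_assoc _ y y, two_mul', add_zero]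

lemma exists_iso : ∃ E : (ℕ → ZMod 2) → Γ × Γ, Continuous E ∧ Function.Bijective E ∧
    (∀ x y, E (x + y) = E x + E y) ∧ ∀ C : Set (Γ × Γ), IsCompact C → IsCompact (E ⁻¹' C) := by
  obtain ⟨ε⟩ : Nonempty ((List Bool ⊕ List Bool) ≃ ℕ) := nonempty_equiv_of_countable
  have hc : Continuous fun x : ℕ → ZMod 2 =>
      ((fun s => x (ε (Sum.inl s)), fun s => x (ε (Sum.inr s))) : Γ × Γ) :=
    (continuous_pi fun _ => continuous_apply _).prodMk (continuous_pi fun _ => continuous_apply _)
  refine ⟨fun x => (fun s => x (ε (Sum.inl s)), fun s => x (ε (Sum.inr s))), hc, ⟨?_, ?_⟩,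
    fun x y => rfl, fun C hC => (hC.isClosed.preimage hc).isCompact⟩
  · intro x y h
    funext n
    obtain ⟨s, rfl⟩ := ε.surjective n
    rcases s with s | s
    · exact congrFun (Prod.mk.inj h).1 s
    · exact congrFun (Prod.mk.inj h).2 s
  · rintro ⟨p, q⟩
    refine ⟨fun n => Sum.elim p q (ε.symm n), ?_⟩
    refine Prod.ext ?_ ?_
    · funext s
      show Sum.elim p q (ε.symm (ε (Sum.inl s))) = p s
      rw [ε.symm_apply_apply]
      rfl
    · funext s
      show Sum.elim p q (ε.symm (ε (Sum.inr s))) = q s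
      rw [ε.symm_apply_apply]
      rfl

/-- In ZFC there is a set `B` in the Cantor group `ℕ → ZMod 2`, a countable union of compact
sets (so `B` is Borel), with the following properties.
1. Some uncountable set `H` has `(B + x) ∩ (B + y)` uncountable for all `x, y ∈ H`.
2. Each nonempty perfect set `P` contains different `x, y` such that `(B + x) ∩ (B + y)` has at
most four elements. -/
theorem result : ∃ B : Set (ℕ → ZMod 2),
    (∃ C : ℕ → Set (ℕ → ZMod 2), (∀ n, IsCompact (C n)) ∧ B = ⋃ n, C n) ∧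
    MeasurableSet[borel (ℕ → ZMod 2)] B ∧
    (∃ H : Set (ℕ → ZMod 2), ¬ H.Countable ∧
      ∀ x ∈ H, ∀ y ∈ H, ¬ (((fun b => b + x) '' B) ∩ ((fun b => b + y) '' B)).Countable) ∧
    ∀ P : Set (ℕ → ZMod 2), Perfect P → P.Nonempty → ∃ x ∈ P, ∃ y ∈ P, x ≠ y ∧
      (((fun b => b + x) '' B) ∩ ((fun b => b + y) '' B)).encard ≤ 4 := by
  obtain ⟨E, hE, hb, hadd, hcomp⟩ := exists_iso
  obtain ⟨C, hC, hCB⟩ := compact_B₀
  have hC' : ∀ n, IsCompact (E ⁻¹' C n) := fun n => hcomp _ (hC n)
  have hun : E ⁻¹' B₀ = ⋃ n, E ⁻¹' C n := by rw [hCB, preimage_iUnion]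
  have hinj : ∀ x : ℕ → ZMod 2, Function.Injective fun b => b + x := fun x => add_left_injective x
  have hset : ∀ z, {b ∈ E ⁻¹' B₀ | b + z ∈ E ⁻¹' B₀} = E ⁻¹' {p ∈ B₀ | p + E z ∈ B₀} := by
    intro z
    ext b
    show E b ∈ B₀ ∧ E (b + z) ∈ B₀ ↔ E b ∈ B₀ ∧ E b + E z ∈ B₀
    rw [hadd]
  have hcount : ∀ S : Set (Γ × Γ), (E ⁻¹' S).Countable → S.Countable := by
    intro S hS
    have := hS.image E
    rwa [Set.image_preimage_eq _ hb.2] at this
  refine ⟨E ⁻¹' B₀, ⟨fun n => E ⁻¹' C n, hC', hun⟩, ?_, ?_, ?_⟩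
  · rw [hun]
    let _i : MeasurableSpace (ℕ → ZMod 2) := borel _
    have _j : BorelSpace (ℕ → ZMod 2) := ⟨rfl⟩
    exact MeasurableSet.iUnion fun n => (hC' n).isClosed.measurableSet
  · obtain ⟨H, hH1, hH2⟩ := exists_uncountable
    refine ⟨E ⁻¹' ((fun h => (h, (0 : Γ))) '' H), fun h => hH1 ?_, ?_⟩
    · exact Set.countable_of_injective_of_countable_image
        (Function.Injective.injOn fun h h' e => (Prod.mk.inj e).1) (hcount _ h)
    · rintro x ⟨h, hh, hx⟩ y ⟨h', hh', hy⟩ hcount1
      have h1 : (tr (E ⁻¹' B₀) x ∩ tr (E ⁻¹' B₀) y).Countable := hcount1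
      rw [tr_inter] at h1
      have h2 := Set.countable_of_injective_of_countable_image (hinj x).injOn h1
      rw [hset] at h2
      have h3 := hcount _ h2
      have hx' : E x = (h, 0) := hx.symm
      have hy' : E y = (h', 0) := hy.symm
      rw [hadd, hx', hy'] at h3
      by_cases hhh : h = h'
      · subst hhh
        have h4 : ((h, (0 : Γ)) + (h, (0 : Γ)) : Γ × Γ) = 0 :=
          Prod.ext (two_mul_φ h) (add_zero _)
        rw [h4] at h3
        apply not_countable_B₀
        simpa using h3
      · have h4 : ((h, (0 : Γ)) + (h', (0 : Γ)) : Γ × Γ) = (h + h', 0) :=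
          Prod.ext rfl (add_zero _)
        rw [h4] at h3
        exact big (hH2 h hh h' hh' hhh) h3
  · intro P hP hPne
    let _i := TopologicalSpace.upgradeIsCompletelyMetrizable (ℕ → ZMod 2)
    obtain ⟨F, hF1, hF2, hF3⟩ := hP.exists_nat_bool_injection hPne
    by_contra hcon
    push Not at hcon
    have key : ∀ b b', b ≠ b' → (E (F b + F b')).1 ∈ A ∧ (E (F b + F b')).2 = 0 := by
      intro b b' hbb
      by_contra hcon2
      have h1 : F b ≠ F b' := fun h => hbb (hF3 h)
      have h2 := hcon _ (hF1 ⟨b, rfl⟩) _ (hF1 ⟨b', rfl⟩) h1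
      have h3 : E (F b + F b') ≠ 0 := by
        intro h0
        apply h1
        apply hb.1
        rw [hadd] at h0
        refine Prod.ext ?_ ?_
        · have := add_eq_of (congrArg Prod.fst h0)
          have h5 : (E (F b')).1 = (E (F b)).1 := by simpa using this
          exact h5.symm
        · have := add_eq_of (congrArg Prod.snd h0)
          have h5 : (E (F b')).2 = (E (F b)).2 := by simpa using this
          exact h5.symm
      have h4 := small h3 hcon2
      have h5 : (tr (E ⁻¹' B₀) (F b) ∩ tr (E ⁻¹' B₀) (F b')).encard ≤ 4 := by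
        rw [tr_inter, (hinj _).injOn.encard_image, hset]
        refine le_trans ?_ h4
        rw [← hb.1.injOn.encard_image]
        exact encard_le_encard (image_preimage_subset _ _)
      exact absurd h5 (not_le.2 h2)
    have h2nd : ∀ b b', (E (F b)).2 = (E (F b')).2 := by
      intro b b'
      by_cases h : b = b'
      · rw [h]
      · have h1 := (key b b' h).2
        rw [hadd] at h1
        have := add_eq_of (show (E (F b)).2 + (E (F b')).2 = 0 from h1)
        rw [add_zero] at this
        exact this.symm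
    obtain ⟨b, b', hbb, hnot⟩ := no_perfect_A (F := fun b => (E (F b)).1)
      (continuous_fst.comp (hE.comp hF2)) (by
        intro b b' h
        exact hF3 (hb.1 (Prod.ext h (h2nd b b'))))
    apply hnot
    have h1 := (key b b' hbb).1
    rw [hadd] at h1
    exact h1

end Pool.Agent.Results.MP_11d5c7_lc.OverlappingTranslates
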